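import Pool.Agent.Work.MP_2709b3_lc.Final

/-!
MP_2709b3_lc: a random labelled oriented tree has, with probability tending to one, no Siggers
polymorphism.  The definitions follow the problem file clause by clause.  Author of this file:
helper62; the proof of the main step is helper15's.
-/

set_option autoImplicit false

namespace Pool.Agent.Results.MP_2709b3_lc.RandomTrees

open Filter Topology

/-- A digraph with the vertex set `V` is a set `E` of arcs, `E ⊆ V × V`.  A homomorphism from the
digraph `E` to the digraph `F` is a map `f` of the vertices which sends arcs to arcs. -/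
def IsHom {V W : Type} (E : Set (V × V)) (F : Set (W × W)) (f : V → W) : Prop :=
  ∀ u v : V, (u, v) ∈ E → (f u, f v) ∈ F

/-- `E` is an oriented tree: it is obtained from an undirected tree `G` by giving each edge exactly
one of its two directions. -/
def IsOrientedTree {V : Type} (E : Set (V × V)) : Prop :=
  ∃ G : SimpleGraph V, G.IsTree ∧ (∀ u v : V, (u, v) ∈ E → G.Adj u v) ∧
    ∀ u v : V, G.Adj u v → ((u, v) ∈ E ∧ (v, u) ∉ E) ∨ ((v, u) ∈ E ∧ (u, v) ∉ E)

/-- The fourth power of the digraph `E`: arcs are taken coordinatewise. -/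
def pow4 {V : Type} (E : Set (V × V)) : Set ((Fin 4 → V) × (Fin 4 → V)) :=
  {p | ∀ i : Fin 4, (p.1 i, p.2 i) ∈ E}

/-- `s` is a Siggers polymorphism of `E`: a homomorphism from the fourth power of `E` to `E` with
`s (x, y, z, x) = s (y, x, y, z)` for all vertices `x, y, z`. -/
def IsSiggers {V : Type} (E : Set (V × V)) (s : (Fin 4 → V) → V) : Prop :=
  IsHom (pow4 E) E s ∧ ∀ x y z : V, s ![x, y, z, x] = s ![y, x, y, z]

/-- The probability that an oriented tree with the vertex set `Fin n`, drawn uniformly at random,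
has the property `H`. -/
noncomputable def prob (n : ℕ) (H : Set (Fin n × Fin n) → Prop) : ℝ :=
  (Set.ncard {E : Set (Fin n × Fin n) | IsOrientedTree E ∧ H E} : ℝ) /
    (Set.ncard {E : Set (Fin n × Fin n) | IsOrientedTree E} : ℝ)

/-! ### Translation to the language of the proof -/

section aux

open Pool.Agent.Work.MP_2709b3_lc

open Classical in
/-- Sets of arcs and Boolean matrices. -/
noncomputable def toB (n : ℕ) : Set (Fin n × Fin n) ≃ (Fin n → Fin n → Bool) where
  toFun E := fun a b => decide ((a, b) ∈ E)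
  invFun B := {p | B p.1 p.2 = true}
  left_inv E := by ext p; simp
  right_inv B := by funext a b; simp

theorem toB_apply {n : ℕ} (E : Set (Fin n × Fin n)) (a b : Fin n) :
    toB n E a b = true ↔ (a, b) ∈ E := by
  classical
  simp [toB]

theorem isOT_iff {n : ℕ} (E : Set (Fin n × Fin n)) : IsOT (toB n E) ↔ IsOrientedTree E := by
  constructor
  · rintro ⟨h1, h2⟩
    refine ⟨_, h2, ?_, ?_⟩
    · intro u v huv
      rw [SimpleGraph.fromRel_adj, toB_apply, toB_apply]
      refine ⟨?_, Or.inl huv⟩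
      rintro rfl
      exact h1 u u ⟨(toB_apply E u u).2 huv, (toB_apply E u u).2 huv⟩
    · intro u v huv
      rw [SimpleGraph.fromRel_adj, toB_apply, toB_apply] at huv
      have h3 := h1 u v
      rw [toB_apply, toB_apply] at h3
      rcases huv.2 with h | h
      · exact Or.inl ⟨h, fun h' => h3 ⟨h, h'⟩⟩
      · exact Or.inr ⟨h, fun h' => h3 ⟨h', h⟩⟩
  · rintro ⟨G, hG, h1, h2⟩
    refine ⟨?_, ?_⟩
    · rintro a b ⟨h3, h4⟩
      rw [toB_apply] at h3 h4
      rcases h2 a b (h1 a b h3) with h | h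
      · exact h.2 h4
      · exact h.2 h3
    · have e : SimpleGraph.fromRel (fun a b => toB n E a b = true) = G := by
        ext a b
        rw [SimpleGraph.fromRel_adj, toB_apply, toB_apply]
        constructor
        · rintro ⟨-, h | h⟩
          · exact h1 a b h
          · exact (h1 b a h).symm
        · intro h
          refine ⟨h.ne, ?_⟩
          rcases h2 a b h with h' | h'
          · exact Or.inl h'.1
          · exact Or.inr h'.1
      rw [e]
      exact hG

theorem noSig_iff {n : ℕ} (E : Set (Fin n × Fin n)) :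
    NoSig (toB n E) ↔ ¬ ∃ s : (Fin 4 → Fin n) → Fin n, IsSiggers E s := by
  unfold NoSig
  apply not_congr
  constructor
  · rintro ⟨s, h1, h2⟩
    refine ⟨fun v => s (v 0) (v 1) (v 2) (v 3), ?_, ?_⟩
    · intro u v huv
      have h3 := h2 (u 0) (u 1) (u 2) (u 3) (v 0) (v 1) (v 2) (v 3)
      simp only [toB_apply] at h3
      exact h3 (huv 0) (huv 1) (huv 2) (huv 3)
    · intro x y z
      exact h1 x y z
  · rintro ⟨s, h1, h2⟩
    refine ⟨fun x y z w => s ![x, y, z, w], fun a r e => h2 a r e, ?_⟩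
    intro x₁ x₂ x₃ x₄ y₁ y₂ y₃ y₄ e1 e2 e3 e4
    rw [toB_apply] at *
    apply h1
    intro i
    fin_cases i
    · exact e1
    · exact e2
    · exact e3
    · exact e4

theorem card_eq {n : ℕ} (H : Set (Fin n × Fin n) → Prop) (K : (Fin n → Fin n → Bool) → Prop)
    [DecidablePred K] (h : ∀ E, H E ↔ K (toB n E)) :
    Set.ncard {E : Set (Fin n × Fin n) | IsOrientedTree E ∧ H E} =
      ((OTs (Fin n)).filter K).card := by
  rw [← Set.ncard_image_of_injective _ (toB n).injective, ← Set.ncard_coe_finset]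
  congr 1
  ext B
  simp only [Set.mem_image, Set.mem_setOf_eq, Finset.coe_filter, mem_OTs]
  constructor
  · rintro ⟨E, ⟨h1, h2⟩, rfl⟩
    exact ⟨(isOT_iff E).2 h1, (h E).1 h2⟩
  · rintro ⟨h1, h2⟩
    refine ⟨(toB n).symm B, ⟨?_, ?_⟩, by simp⟩
    · rw [← isOT_iff, Equiv.apply_symm_apply]; exact h1
    · rw [h, Equiv.apply_symm_apply]; exact h2

theorem card_all (n : ℕ) :
    Set.ncard {E : Set (Fin n × Fin n) | IsOrientedTree E} = (OTs (Fin n)).card := by
  classical
  have := card_eq (n := n) (fun _ => True) (fun _ => True) (fun _ => Iff.rfl)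
  simpa using this

open Classical in
theorem prob_noSig (n : ℕ) :
    prob n (fun E => ¬ ∃ s : (Fin 4 → Fin n) → Fin n, IsSiggers E s) =
      (((OTs (Fin n)).filter (fun E => NoSig E)).card : ℝ) / ((OTs (Fin n)).card : ℝ) := by
  unfold prob
  rw [card_all, card_eq (n := n) _ (fun E => NoSig E) (fun E => (noSig_iff E).symm)]

theorem prob_mono {n : ℕ} {H K : Set (Fin n × Fin n) → Prop}
    (h : ∀ E, IsOrientedTree E → H E → K E) : prob n H ≤ prob n K := by
  unfold prob
  apply div_le_div_of_nonneg_right _ (by positivity)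
  have : Set.ncard {E : Set (Fin n × Fin n) | IsOrientedTree E ∧ H E} ≤
      Set.ncard {E : Set (Fin n × Fin n) | IsOrientedTree E ∧ K E} := by
    apply Set.ncard_le_ncard _ (Set.toFinite _)
    rintro E ⟨h1, h2⟩
    exact ⟨h1, h E h1 h2⟩
  exact_mod_cast this

theorem prob_le_one {n : ℕ} {H : Set (Fin n × Fin n) → Prop} : prob n H ≤ 1 := by
  unfold prob
  apply div_le_one_of_le₀ _ (by positivity)
  have : Set.ncard {E : Set (Fin n × Fin n) | IsOrientedTree E ∧ H E} ≤
      Set.ncard {E : Set (Fin n × Fin n) | IsOrientedTree E} := by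
    apply Set.ncard_le_ncard _ (Set.toFinite _)
    rintro E ⟨h1, -⟩
    exact h1
  exact_mod_cast this

theorem prob_nonneg {n : ℕ} {H : Set (Fin n × Fin n) → Prop} : 0 ≤ prob n H := by
  unfold prob
  positivity

/-! ### The rate -/

/-- `√2`. -/
noncomputable def rr : ℝ := Real.sqrt 2

theorem rr_sq : rr * rr = 2 := Real.mul_self_sqrt (by norm_num)

theorem rr_gt : 1 < rr := by
  unfold rr
  rw [Real.lt_sqrt (by norm_num)]
  norm_num

theorem tendsto_rr (k : ℕ) :
    Tendsto (fun L : ℕ => (100 * (L : ℝ) + 200) ^ k / 2 ^ L * rr ^ L) atTop (𝓝 0) := by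
  have h := tendsto_pow_const_div_const_pow_of_one_lt k rr_gt
  have h2 := (h.comp (tendsto_add_atTop_nat 2)).const_mul (100 ^ k * rr ^ 2)
  rw [mul_zero] at h2
  refine h2.congr fun L => ?_
  have hr : rr ≠ 0 := by have := rr_gt; positivity
  have e : (2 : ℝ) ^ L = rr ^ L * rr ^ L := by rw [← mul_pow, rr_sq]
  simp only [Function.comp]
  rw [e, pow_add]
  push_cast
  rw [show (100 * (L : ℝ) + 200) = 100 * (L + 2) by ring, mul_pow]
  field_simp

theorem tendsto_gL_rr : Tendsto (fun L : ℕ => gL L * rr ^ L) atTop (𝓝 0) := by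
  have p1 := tendsto_rr 1
  have p2 := tendsto_rr 2
  have p3 := tendsto_rr 3
  have p4 := tendsto_rr 4
  have q1 := tendsto_poly_div 1
  have ex : ∀ c : ℝ, Tendsto (fun L : ℕ => Real.exp (c * (100 * (L : ℝ) + 200) / 2 ^ L)) atTop
      (𝓝 1) := by
    intro c
    have h1 : Tendsto (fun L : ℕ => c * (100 * (L : ℝ) + 200) / 2 ^ L) atTop (𝓝 0) := by
      have := q1.const_mul c
      rw [mul_zero] at this
      refine this.congr fun L => ?_
      rw [pow_one]; ring
    have h2 := (Real.continuous_exp.tendsto 0).comp h1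
    rw [Real.exp_zero] at h2
    exact h2
  have a1 : Tendsto (fun L : ℕ =>
      (Real.exp (148 * (100 * (L : ℝ) + 200) / 2 ^ L) - 1) * rr ^ L) atTop (𝓝 0) := by
    have hub : Tendsto (fun L : ℕ => 148 * ((100 * (L : ℝ) + 200) ^ 1 / 2 ^ L * rr ^ L) *
        Real.exp (148 * (100 * (L : ℝ) + 200) / 2 ^ L)) atTop (𝓝 0) := by
      have := (p1.const_mul 148).mul (ex 148)
      simpa using this
    refine squeeze_zero (fun L => ?_) (fun L => ?_) hub
    · have hr : 0 ≤ rr ^ L := by have := rr_gt; positivity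
      have : 1 ≤ Real.exp (148 * (100 * (L : ℝ) + 200) / 2 ^ L) := by
        rw [← Real.exp_zero]; apply Real.exp_le_exp.2; positivity
      exact mul_nonneg (by linarith) hr
    · have hr : 0 ≤ rr ^ L := by have := rr_gt; positivity
      obtain ⟨x, hx⟩ : ∃ x : ℝ, x = 148 * (100 * (L : ℝ) + 200) / 2 ^ L := ⟨_, rfl⟩
      have hx0 : 0 ≤ x := by rw [hx]; positivity
      have h1 : Real.exp x - 1 ≤ x * Real.exp x := by
        have h2 := Real.add_one_le_exp (-x)
        have h3 : Real.exp x * Real.exp (-x) = 1 := by rw [← Real.exp_add]; simp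
        have h4 := Real.exp_pos x
        nlinarith
      rw [← hx]
      calc (Real.exp x - 1) * rr ^ L ≤ (x * Real.exp x) * rr ^ L := by gcongr
        _ = 148 * ((100 * (L : ℝ) + 200) ^ 1 / 2 ^ L * rr ^ L) * Real.exp x := by
          rw [hx, pow_one]; ring
  have a2 : Tendsto (fun L : ℕ => ((M36 : ℝ) * 10 * Real.exp 39 * 2 ^ 37 *
      (100 * (L : ℝ) + 200) ^ 3 * Real.exp (296 * (100 * L + 200) / 2 ^ L) / 2 ^ L) * rr ^ L)
      atTop (𝓝 0) := by
    have := (p3.const_mul ((M36 : ℝ) * 10 * Real.exp 39 * 2 ^ 37)).mul (ex 296)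
    rw [mul_zero, zero_mul] at this
    refine this.congr fun L => ?_
    ring
  have a3 : Tendsto (fun L : ℕ => (2 * (100 * (L : ℝ) + 200) ^ 2 *
      (2 * (100 * L + 200) + 1) / 2 ^ L + 4 * (100 * L + 200) ^ 2 / 2 ^ L) * rr ^ L)
      atTop (𝓝 0) := by
    have := (p3.const_mul 4).add (p2.const_mul 6)
    rw [mul_zero, mul_zero, add_zero] at this
    refine this.congr fun L => ?_
    ring
  have a4 : Tendsto (fun L : ℕ => (12 * (100 * (L : ℝ) + 200) ^ 4 / 2 ^ L) * rr ^ L)
      atTop (𝓝 0) := by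
    have := p4.const_mul 12
    rw [mul_zero] at this
    refine this.congr fun L => ?_
    ring
  have := ((a1.add a2).add a3).add a4
  simp only [add_zero] at this
  refine this.congr fun L => ?_
  unfold gL
  ring

open Classical in
theorem rate : ∃ C : ℝ, ∀ n : ℕ, 1 ≤ n →
    1 - C * (n : ℝ) ^ (-(1 / 200 : ℝ)) ≤
      (((OTs (Fin n)).filter (fun E => NoSig E)).card : ℝ) / ((OTs (Fin n)).card : ℝ) := by
  obtain ⟨C0, hC0⟩ := tendsto_gL_rr.bddAbove_range
  obtain ⟨C, hC⟩ : ∃ C : ℝ, C = 2 * max C0 1 := ⟨_, rfl⟩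
  have hm : 1 ≤ max C0 1 := le_max_right _ _
  refine ⟨C, fun n hn => ?_⟩
  have hn0 : (0 : ℝ) < n := by exact_mod_cast hn
  have hq0 : 0 ≤ (((OTs (Fin n)).filter (fun E => NoSig E)).card : ℝ) /
      ((OTs (Fin n)).card : ℝ) := by positivity
  by_cases hbig : 2 ^ 100 ≤ n
  · have hlog : 100 ≤ Nat.log 2 n := Nat.le_log_of_pow_le (by norm_num) hbig
    have hne : n ≠ 0 := by omega
    obtain ⟨L, hL⟩ : ∃ L, L = Nat.log 2 n / 100 := ⟨_, rfl⟩
    have h1 := frac_gL (n := n) (N := Nat.log 2 n) (L := L) (by omega) (by omega) (by omega)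
      (Nat.pow_log_le_self 2 hne) (Nat.lt_pow_succ_log_self (by norm_num) n)
    refine le_trans ?_ h1
    have h2 : gL L * rr ^ L ≤ C0 := hC0 ⟨L, rfl⟩
    have hr1 := rr_gt
    have hr : 0 < rr ^ L := by positivity
    have h3 : gL L ≤ max C0 1 / rr ^ L := by
      rw [le_div_iff₀ hr]
      exact h2.trans (le_max_left _ _)
    -- `n ^ (1/200) ≤ 2 * rr ^ L`
    have h4 : (n : ℝ) ^ (1 / 200 : ℝ) ≤ 2 * rr ^ L := by
      have h5 : (n : ℝ) ≤ (2 * rr ^ L) ^ 200 := by
        have h6 : n ≤ 2 ^ (100 * L + 101) := by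
          have h7 : n < 2 ^ (Nat.log 2 n).succ := Nat.lt_pow_succ_log_self (by norm_num) n
          refine h7.le.trans (Nat.pow_le_pow_right (by norm_num) ?_)
          omega
        have h8 : (n : ℝ) ≤ 2 ^ (100 * L + 101) := by exact_mod_cast h6
        refine h8.trans ?_
        have h9 : (rr ^ L) ^ 200 = 2 ^ (100 * L) := by
          rw [← pow_mul, show L * 200 = (100 * L) * 2 by ring, pow_mul', sq, rr_sq]
        rw [mul_pow, h9, pow_add, mul_comm]
        gcongr
        · norm_num
        · norm_num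
      calc (n : ℝ) ^ (1 / 200 : ℝ) ≤ ((2 * rr ^ L) ^ 200) ^ (1 / 200 : ℝ) := by
            apply Real.rpow_le_rpow hn0.le h5 (by norm_num)
        _ = 2 * rr ^ L := by
            rw [← Real.rpow_natCast, ← Real.rpow_mul (by positivity)]
            norm_num
    have h10 : max C0 1 / rr ^ L ≤ C * (n : ℝ) ^ (-(1 / 200 : ℝ)) := by
      rw [Real.rpow_neg hn0.le, ← div_eq_mul_inv, div_le_div_iff₀ hr (by positivity), hC]
      nlinarith
    linarith
  · have h1 : (n : ℝ) ≤ 2 ^ 100 := by
      push Not at hbig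
      exact_mod_cast hbig.le
    have h2 : (n : ℝ) ^ (1 / 200 : ℝ) ≤ 2 := by
      calc (n : ℝ) ^ (1 / 200 : ℝ) ≤ ((2 : ℝ) ^ (200 : ℕ)) ^ (1 / 200 : ℝ) := by
            apply Real.rpow_le_rpow hn0.le (h1.trans _) (by norm_num)
            apply pow_le_pow_right₀ <;> norm_num
        _ = 2 := by
            rw [← Real.rpow_natCast, ← Real.rpow_mul (by positivity)]
            norm_num
    have h3 : 1 ≤ C * (n : ℝ) ^ (-(1 / 200 : ℝ)) := by
      rw [Real.rpow_neg hn0.le, ← div_eq_mul_inv, le_div_iff₀ (by positivity), hC]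
      linarith
    linarith

end aux

/-- **Full answer to Q1.**  With `q_n` the probability that an oriented tree with the vertex set
`{1, …, n}` (here `Fin n`), drawn uniformly at random, has no Siggers polymorphism: `q_n → 1`.
Moreover there is a constant `C` such that `1 - C n ^ (-1/200) ≤ q_n` for all `n ≥ 1`, and the same
lower bound holds, with the same `C`, for the probability `p_n` of any property `H` which all oriented
trees without Siggers polymorphism have (such a property is NP-hardness of the constraint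
satisfaction problem, by the theorem of Bulatov, Jeavons and Krokhin quoted in the problem file);
so `p_n → 1`. -/
theorem result :
    Tendsto (fun n : ℕ => prob n (fun E => ¬ ∃ s : (Fin 4 → Fin n) → Fin n, IsSiggers E s))
      atTop (𝓝 1) ∧
    ∃ C : ℝ, ∀ n : ℕ, 1 ≤ n → ∀ H : Set (Fin n × Fin n) → Prop,
      (∀ E : Set (Fin n × Fin n), IsOrientedTree E →
        (¬ ∃ s : (Fin 4 → Fin n) → Fin n, IsSiggers E s) → H E) →
      1 - C * (n : ℝ) ^ (-(1 / 200 : ℝ)) ≤ prob n H ∧ prob n H ≤ 1 := by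
  classical
  refine ⟨?_, ?_⟩
  · refine Pool.Agent.Work.MP_2709b3_lc.main_tendsto.congr fun n => ?_
    exact (prob_noSig n).symm
  · obtain ⟨C, hC⟩ := rate
    refine ⟨C, fun n hn H hH => ⟨?_, prob_le_one⟩⟩
    refine (hC n hn).trans ?_
    rw [← prob_noSig n]
    exact prob_mono hH

end Pool.Agent.Results.MP_2709b3_lc.RandomTrees
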